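import Pool.Agent.H57.LH.Targets2

/-!
# Compactness of canonical maps
-/

set_option autoImplicit false

namespace Pool.Agent.H60.LH

open Pool.Agent.H68.BP Pool.Agent.H58.SF Pool.Agent.H53.GC Pool.Agent.H53.NR
open Pool.Agent.H57.AR (tp ty tpo pullO Ty OT)
open Pool.Agent.H57.EQ (Cx)
open Pool.Agent.H57.LH Function

/-- the tuple `u`, continued by its first entry -/
def cext {a M : ℕ} (ha : 1 ≤ a) {W : Type} (u : Fin a → W) (i : Fin M) : W :=
  if h : (i : ℕ) < a then u ⟨i, h⟩ else u ⟨0, ha⟩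

theorem cext_castLE {a M : ℕ} (ha : 1 ≤ a) (hM : a ≤ M) {W : Type} (u : Fin a → W) (i : Fin a) :
    cext ha u (Fin.castLE hM i) = u i := by
  unfold cext
  rw [dif_pos (by simp)]
  rfl

/-- the entry `a` at the place zero, then `b` -/
def ccf {M : ℕ} {W : Type} (a b : W) (i : Fin M) : W := if (i : ℕ) = 0 then a else b

theorem relF_anti {V : Type} {σ ρ : Sig} [LinearOrder V] {I : Type} {𝔸 : Str σ V} {𝔹 : Str ρ V}
    {R : (I → Ty ρ (Fin 2)) → Ty ρ (Fin 2) → Prop} {K : ℕ}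
    {Ψ : (I → OT ρ (Fin K)) → OT ρ (Fin K)} {F F' : Finset V} (hF : F ⊆ F')
    (h : RelF 𝔸 𝔹 R K Ψ F') : RelF 𝔸 𝔹 R K Ψ F := by
  obtain ⟨ψ, h1, h2, h3⟩ := h
  exact ⟨ψ, fun l z hz => h1 l z (fun a i => hF (hz a i)),
    fun u w hu hw => h2 u w (fun i => hF (hu i)) (fun i => hF (hw i)),
    fun z hz => h3 z (fun a i => hF (hz a i))⟩

theorem pf_CNB : T_CNB := by
  classical
  intro V σ ρ _ 𝔸 𝔹 har I _ R hR
  obtain ⟨K, hK⟩ : ∃ K, K = 2 + ∑ l, ρ.ar l := ⟨_, rfl⟩
  have hK2 : 2 ≤ K := by omega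
  have hKl : ∀ l, ρ.ar l ≤ K := by
    intro l
    have : ρ.ar l ≤ ∑ l, ρ.ar l := Finset.single_le_sum (f := fun l => ρ.ar l)
      (fun _ _ => Nat.zero_le _) (Finset.mem_univ l)
    omega
  have hfin : Finite ((I → OT ρ (Fin K)) → OT ρ (Fin K)) := by
    haveI : Finite (Str ρ (Fin K)) := by
      unfold Str
      infer_instance
    infer_instance
  obtain ⟨Ψ0, hΨ0⟩ : ∃ Ψ0, ∀ F, RelF 𝔸 𝔹 R K Ψ0 F := by
    by_contra hc
    push Not at hc
    choose F hF using hc
    letI := Fintype.ofFinite ((I → OT ρ (Fin K)) → OT ρ (Fin K))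
    obtain ⟨Ψ, hΨ⟩ := hR K (Finset.univ.biUnion F)
    exact hF Ψ (relF_anti (Finset.subset_biUnion_of_mem F (Finset.mem_univ Ψ)) hΨ)
  refine ⟨fun k T =>
    (fun l y => (Ψ0 (fun i => pullO (T i) (cext (har l) y))).1 l (fun j => Fin.castLE (hKl l) j),
      fun a b => (Ψ0 (fun i => pullO (T i) (ccf a b))).2 ⟨0, by omega⟩ ⟨1, by omega⟩), ?_⟩
  intro W _ G
  have hFf := Set.finite_range (fun p : I × W => G p.1 p.2)
  obtain ⟨ψ', h1, h2, h3⟩ := hΨ0 hFf.toFinset
  have hmem : ∀ i w, G i w ∈ hFf.toFinset := fun i w =>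
    (Set.Finite.mem_toFinset _).2 ⟨(i, w), rfl⟩
  refine ⟨fun w => ψ' (fun i => G i w), ?_, ?_, ?_⟩
  · intro l z hz
    exact h1 l (fun a i => G i (z a)) (fun a i => hmem i (z a)) hz
  · intro k z
    refine Prod.ext ?_ ?_
    · funext l y
      have h4 := h3 (fun a i => G i (z (cext (har l) y a))) (fun a i => hmem i _)
      have h5 : (Ψ0 (fun i => pullO (tpo 𝔹 (fun a => G i (z a))) (cext (har l) y))).1 l
          (fun j => Fin.castLE (hKl l) j) =
          𝔹 l (fun j => ψ' (fun i => G i (z (cext (har l) y (Fin.castLE (hKl l) j))))) :=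
        (congrFun (congrFun (congrArg Prod.fst h4) l) (fun j => Fin.castLE (hKl l) j)).symm
      have h6 : (fun j => ψ' (fun i => G i (z (cext (har l) y (Fin.castLE (hKl l) j))))) =
          fun j => ψ' (fun i => G i (z (y j))) := by
        funext j
        rw [cext_castLE]
      rw [h6] at h5
      exact h5.symm
    · funext a b
      have h4 := h3 (fun c i => G i (z (ccf a b c))) (fun c i => hmem i _)
      exact congrFun (congrFun (congrArg Prod.snd h4) (⟨0, by omega⟩ : Fin K))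
        (⟨1, by omega⟩ : Fin K)
  · intro u w
    exact h2 _ _ (fun i => hmem i u) (fun i => hmem i w)

end Pool.Agent.H60.LH
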