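import Pool.Agent.H57.LH.Targets2

/-!
# Minimal presentations: the action on the types
-/

set_option autoImplicit false

namespace Pool.Agent.H60.LH

open Pool.Agent.H68.BP Pool.Agent.H58.SF Pool.Agent.H53.GC Pool.Agent.H53.NR
open Pool.Agent.H57.AR (tp ty tpo pullO pullT Ty OT HomEq)
open Pool.Agent.H57.EQ (Cx)
open Pool.Agent.H44.KR (HB Amg Tyi TpOn Rlz Prm Sb)
open Pool.Agent.H57.LH Function

theorem pf_MNP (hAMC : T_AMC) (hEXS : T_EXS) (hEXP : T_EXP) : T_MNP := by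
  classical
  intro A V σ ρ 𝔻 𝔸 𝔹 hM γ hγ
  by_contra hinj
  have hty0 : ∀ x y : V, ty 𝔹 x = ty 𝔹 y ↔
      tp 𝔹 (Sum.elim (fun _ : Unit => x) (Fin.elim0 : Fin 0 → V)) =
        tp 𝔹 (Sum.elim (fun _ : Unit => y) (Fin.elim0 : Fin 0 → V)) := by
    intro x y
    have hx : ∀ (x : V) (l : Fin ρ.m) (z : Fin (ρ.ar l) → Unit ⊕ Fin 0),
        (fun i => Sum.elim (fun _ : Unit => x) (Fin.elim0 : Fin 0 → V) (z i)) = fun _ => x := by
      intro x l z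
      funext i
      rcases z i with a | a
      · rfl
      · exact a.elim0
    constructor
    · intro h
      refine Prod.ext ?_ ?_
      · funext a b
        rcases a with a | a
        · rcases b with b | b
          · have : (x = x) = (y = y) := by simp
            exact this
          · exact b.elim0
        · exact a.elim0
      · funext l z
        have h1 : 𝔹 l (fun i => Sum.elim (fun _ : Unit => x) (Fin.elim0 : Fin 0 → V) (z i)) =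
            𝔹 l (fun i => Sum.elim (fun _ : Unit => y) (Fin.elim0 : Fin 0 → V) (z i)) := by
          rw [hx, hx]
          exact congrFun h l
        exact h1
    · intro h
      funext l
      exact congrFun (congrFun (congrArg Prod.snd h) l) (fun _ => Sum.inl ())
  obtain ⟨T, hT⟩ : ∃ T : Set V, T = {x | ∃ t ∈ Rlz 𝔹, γ t = ty 𝔹 x} := ⟨_, rfl⟩
  have hInv : InvT 𝔹 (Fin.elim0 : Fin 0 → V) T := by
    refine ⟨fun j => j.elim0, fun x y hxy hx => ?_⟩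
    rw [hT] at hx ⊢
    obtain ⟨t, h1, h2⟩ := hx
    exact ⟨t, h1, h2.trans ((hty0 x y).2 hxy)⟩
  have hSbT : ∀ (W : Type) [Finite W] (G : W → V), ∃ ψ : W → T,
      Cx 𝔸 (fun _ : Unit => G) (fun w => (ψ w : V)) ∧ ∀ w, ty 𝔹 (ψ w : V) = γ (ty 𝔹 (G w)) := by
    intro W _ G
    obtain ⟨ψ, h1, h2⟩ := hγ W G
    have h3 : ∀ w, ψ w ∈ T := by
      intro w
      rw [hT]
      exact ⟨ty 𝔹 (G w), ⟨G w, rfl⟩, (h2 w).symm⟩
    exact ⟨fun w => ⟨ψ w, h3 w⟩, h1, h2⟩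
  obtain ⟨v⟩ := hM.prs.hb.ne
  have hne : Nonempty (ExD T 0) := by
    obtain ⟨ψ, -, -⟩ := hSbT Unit (fun _ => v)
    exact ⟨Sum.inl (ψ ())⟩
  have hHmg : Hmg 𝔹 := by
    intro W _ A x y h
    obtain ⟨x', h1, h2, -⟩ := hM.prs.hb.amg W A x y ∅ h
    exact ⟨x', h1, h2⟩
  have hTyC : TyC 𝔸 𝔹 (Fin.elim0 : Fin 0 → V) := by
    intro l x y hx hxy
    refine hM.prs.tyi l x y hx ?_
    exact congrArg (fun t : Ty ρ (Fin (σ.ar l) ⊕ Fin 0) => pullT t Sum.inl) hxy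
  have hP := hEXP V σ ρ 𝔸 𝔹 0 Fin.elim0 T 0 Fin.elim0 hM.prs.hb.ar hM.prs.cnt ⟨v⟩
    (fun a => a.elim0) hHmg (hAMC V ρ 𝔹 0 Fin.elim0 hM.prs.hb.amg) hM.prs.hb.lc hInv hTyC hne
  have hH : HomEq 𝔻 (pull 𝔸 (dEx (Fin.elim0 : Fin 0 → V) (Fin.elim0 : Fin 0 → Fin 0) T)) := by
    intro n 𝕏
    rw [hM.heq n 𝕏]
    constructor
    · rintro ⟨f, hf⟩
      obtain ⟨ψ, h1, -⟩ := hSbT (Fin n) f
      refine ⟨fun w => Sum.inl (ψ w), fun l x hx => ?_⟩
      exact h1 l x (fun _ => hf l x hx)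
    · rintro ⟨f, hf⟩
      exact ⟨fun w => dEx (Fin.elim0 : Fin 0 → V) (Fin.elim0 : Fin 0 → Fin 0) T (f w),
        fun l x hx => hf l x hx⟩
  have hmin := (hM.min _ _ _ _ hP hH).1
  -- the map on the types
  have hgr : ∀ s : SS 𝔹, γ s.1 ∈ Rlz 𝔹 := by
    rintro ⟨s, x, hx⟩
    obtain ⟨ψ, -, h2⟩ := hγ Unit (fun _ => x)
    exact ⟨ψ (), by rw [h2, hx]⟩
  have hel : ∀ s : SS (ExB 𝔹 (Fin.elim0 : Fin 0 → V) T 0), ∃ x : T,
      ty (ExB 𝔹 (Fin.elim0 : Fin 0 → V) T 0) (Sum.inl x) = s.1 := by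
    rintro ⟨s, x, hx⟩
    rcases x with x | p
    · exact ⟨x, hx⟩
    · exact p.1.elim0
  choose el hel using hel
  have hpre : ∀ s : SS (ExB 𝔹 (Fin.elim0 : Fin 0 → V) T 0), ∃ t : SS 𝔹,
      γ t.1 = ty 𝔹 (el s : V) := by
    intro s
    have h1 : (el s : V) ∈ {x | ∃ t ∈ Rlz 𝔹, γ t = ty 𝔹 x} := by
      rw [← hT]
      exact (el s).2
    obtain ⟨t, h2, h3⟩ := h1
    exact ⟨⟨t, h2⟩, h3⟩
  choose pre hpre using hpre
  have hinj2 : Injective fun s : SS (ExB 𝔹 (Fin.elim0 : Fin 0 → V) T 0) => γ (pre s).1 := by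
    intro s s' h
    have h1 : ty 𝔹 (el s : V) = ty 𝔹 (el s' : V) := by
      rw [← hpre, ← hpre]
      exact h
    have h2 := ((hEXS V ρ 𝔹 0 Fin.elim0 T 0 hM.prs.hb.ar hInv).1 (el s) (el s')).2
      ((hty0 _ _).1 h1)
    rw [hel, hel] at h2
    exact Subtype.ext h2
  have hpinj : Injective pre := fun s s' h => hinj2 (by
    show γ (pre s).1 = γ (pre s').1
    rw [h])
  have hbij := hpinj.bijective_of_nat_card_le hmin
  apply hinj
  intro s hs s' hs' hss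
  obtain ⟨p, hp⟩ := hbij.2 ⟨s, hs⟩
  obtain ⟨p', hp'⟩ := hbij.2 ⟨s', hs'⟩
  have h1 : (pre p).1 = s := by rw [hp]
  have h2 : (pre p').1 = s' := by rw [hp']
  have h3 : p = p' := hinj2 (by
    show γ (pre p).1 = γ (pre p').1
    rw [h1, h2]
    exact hss)
  rw [← h1, ← h2, h3]

end Pool.Agent.H60.LH
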