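import Pool.Agent.H57.LH.Targets2

/-!
# The generic order
-/

set_option autoImplicit false

namespace Pool.Agent.H60.LH

open Pool.Agent.H68.BP Pool.Agent.H58.SF Pool.Agent.H53.GC Pool.Agent.H53.NR
open Pool.Agent.H57.AR (tp ty tpo pullO Ty OT HomEq El ElD FamR Od GmR INJ lft)
open Pool.Agent.H44.KR (HB Amg TpOn)
open Pool.Agent.H57.LH Function

theorem pf_ORL : T_ORL := by
  intro V ρ 𝔹 hB hV
  obtain ⟨en, hen⟩ := exists_injective_nat V
  let lo : LinearOrder V := LinearOrder.lift' en hen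
  refine ⟨lo, ?_⟩
  intro W _ x rk hrk
  have key : ∀ k : ℕ, ∃ x' : W → V, tp 𝔹 x' = tp 𝔹 x ∧
      ∀ a b, rk a < rk b → rk a < k → en (x' a) < en (x' b) := by
    intro k
    induction k with
    | zero => exact ⟨x, rfl, fun a b _ h => absurd h (Nat.not_lt_zero _)⟩
    | succ k ih =>
      obtain ⟨xk, h1, h2⟩ := ih
      obtain ⟨m, hm⟩ : ∃ m, ∀ a : W, en (xk a) ≤ m := by
        obtain ⟨m, hm⟩ := (Set.finite_range (fun a => en (xk a))).bddAbove
        exact ⟨m, fun a => hm ⟨a, rfl⟩⟩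
      have hfin : {v : V | en v ≤ m}.Finite := (Set.finite_le_nat m).preimage hen.injOn
      obtain ⟨x', h3, h4, h5⟩ := hB.amg W {a | rk a ≤ k} xk xk hfin.toFinset
        ⟨fun _ _ _ _ => Iff.rfl, fun _ _ _ => Iff.rfl⟩
      refine ⟨x', h3.trans h1, fun a b hab hak => ?_⟩
      have ha : rk a ≤ k := Nat.lt_succ_iff.1 hak
      by_cases hb : rk b ≤ k
      · rw [h4 a ha, h4 b hb]
        exact h2 a b hab (lt_of_lt_of_le hab hb)
      · have hnot : x' b ∉ hfin.toFinset := by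
          intro h
          obtain ⟨c, hc, hcb⟩ := h5 b h
          have h6 : (x' b = x' c) = (x b = x c) :=
            congrFun (congrFun (congrArg Prod.fst (h3.trans h1)) b) c
          have h7 := (hrk b c).2 (h6.mp hcb)
          exact hb (h7 ▸ hc)
        rw [Set.Finite.mem_toFinset] at hnot
        rw [h4 a ha]
        exact (hm a).trans_lt (not_le.1 hnot)
  obtain ⟨K, hK⟩ : ∃ K, ∀ a : W, rk a < K := by
    obtain ⟨m, hm⟩ := (Set.finite_range rk).bddAbove
    exact ⟨m + 1, fun a => Nat.lt_succ_of_le (hm ⟨a, rfl⟩)⟩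
  obtain ⟨x', h1, h2⟩ := key K
  refine ⟨x', h1, fun a b => ⟨fun h => ?_, fun h => h2 a b h (hK a)⟩⟩
  by_contra hn
  rcases lt_or_eq_of_le (not_lt.1 hn) with h3 | h3
  · exact lt_asymm (show en (x' a) < en (x' b) from h) (h2 b a h3 (hK b))
  · have h4 : (x' a = x' b) = (x a = x b) := congrFun (congrFun (congrArg Prod.fst h1) a) b
    have h5 := h4.mpr ((hrk a b).1 h3.symm)
    rw [h5] at h
    exact lt_irrefl (en (x' b)) h

end Pool.Agent.H60.LH
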