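import Pool.Agent.H57.LH.Targets2

/-!
# Canonical maps give behaviours
-/

set_option autoImplicit false

namespace Pool.Agent.H60.LH

open Pool.Agent.H68.BP Pool.Agent.H58.SF Pool.Agent.H53.GC Pool.Agent.H53.NR
open Pool.Agent.H57.AR (tp ty tpo pullO Ty OT)
open Pool.Agent.H57.SO (Pal Col vt Bh Sbn fib sigF)
open Pool.Agent.H57.EQ (Cx)
open Pool.Agent.H44.KR (HB Amg Tyi TpOn)
open Pool.Agent.H57.LH Function

section

variable {V : Type} {ρ : Sig} [LinearOrder V] {𝔹 : Str ρ V}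

theorem tpo_one {x y : V} (h : ty 𝔹 x = ty 𝔹 y) :
    tpo 𝔹 (fun _ : Fin 1 => x) = tpo 𝔹 (fun _ : Fin 1 => y) := by
  refine Prod.ext ?_ ?_
  · funext l z
    exact congrFun h l
  · funext a b
    have h1 : (x < x) = (y < y) := by
      simp
    exact h1

theorem ty_of_tpo {x y : V} (h : tpo 𝔹 (fun _ : Fin 1 => x) = tpo 𝔹 (fun _ : Fin 1 => y)) :
    ty 𝔹 x = ty 𝔹 y := by
  funext l
  exact congrFun (congrFun (congrArg Prod.fst h) l) (fun _ => 0)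

theorem eqO_tpo (x : Fin 2 → V) : EqO (tpo 𝔹 x) ↔ x 0 = x 1 := by
  have h1 : EqO (tpo 𝔹 x) ↔ ¬ x 0 < x 1 ∧ ¬ x 1 < x 0 := Iff.rfl
  rw [h1]
  constructor
  · rintro ⟨h2, h3⟩
    exact le_antisymm (not_lt.1 h3) (not_lt.1 h2)
  · intro h
    rw [h]
    exact ⟨lt_irrefl _, lt_irrefl _⟩

end

theorem pf_BHP (hZIG : T_ZIG) : T_BHP := by
  classical
  intro V σ ρ _ 𝔸 𝔹 m hHB hOrd hTyi hm hCyg I _ R Ψ hΨ
  have hrep : ∀ s : SS 𝔹, ∃ x : V, vs 𝔹 x = s := by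
    rintro ⟨s, x, hx⟩
    exact ⟨x, Subtype.ext hx⟩
  choose rep hrep using hrep
  have hψ : ∀ t : I → SS 𝔹, ∃ y : V, tpo 𝔹 (fun _ : Fin 1 => y) =
      Ψ 1 (fun i => tpo 𝔹 (fun _ : Fin 1 => rep (t i))) := by
    intro t
    obtain ⟨ψ, -, h2, -⟩ := hΨ Unit (fun i _ => rep (t i))
    exact ⟨ψ (), h2 1 (fun _ => ())⟩
  choose val hval using hψ
  obtain ⟨κ, hκ⟩ : ∃ κ : (I → SS 𝔹) → (I → SS 𝔹) → Set I → Prop, κ = fun t t' D =>
      ∃ x : I → Fin 2 → V, (∀ i, vs 𝔹 (x i 0) = t i) ∧ (∀ i, vs 𝔹 (x i 1) = t' i) ∧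
        {i | x i 0 = x i 1} = D ∧ EqO (Ψ 2 (fun i => tpo 𝔹 (x i))) := ⟨_, rfl⟩
  have key : ∀ (W : Type) [Finite W] (G : I → W → V) (ψ : W → V),
      (∀ (k : ℕ) (z : Fin k → W),
        tpo 𝔹 (fun a => ψ (z a)) = Ψ k (fun i => tpo 𝔹 (fun a => G i (z a)))) →
      (∀ w, vs 𝔹 (ψ w) = vs 𝔹 (val (fun i => vs 𝔹 (G i w)))) ∧
      ∀ u w, ψ u = ψ w ↔ κ (fun i => vs 𝔹 (G i u)) (fun i => vs 𝔹 (G i w))
        {i | G i u = G i w} := by
    intro W _ G ψ hG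
    refine ⟨fun w => ?_, fun u w => ?_⟩
    · rw [vs_eq_iff]
      apply ty_of_tpo
      rw [hval, hG 1 (fun _ => w)]
      congr 1
      funext i
      apply tpo_one
      rw [← vs_eq_iff, hrep]
    · have h1 : ∀ a : Fin 2, ψ (![u, w] a) = (![ψ u, ψ w] : Fin 2 → V) a := by
        intro a
        fin_cases a <;> rfl
      have h2 := hG 2 ![u, w]
      have h3 : ψ u = ψ w ↔ EqO (Ψ 2 (fun i => tpo 𝔹 (fun a => G i (![u, w] a)))) := by
        rw [← h2, eqO_tpo]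
        exact Iff.rfl
      rw [h3, hκ]
      constructor
      · intro h
        exact ⟨fun i a => G i (![u, w] a), fun i => rfl, fun i => rfl, rfl, h⟩
      · rintro ⟨x, h4, h5, h6, h7⟩
        refine hZIG V σ ρ 𝔸 𝔹 m hOrd hm hCyg I R Ψ hΨ x (fun i a => G i (![u, w] a)) ?_ ?_ h7
        · intro i a
          rw [← vs_eq_iff]
          match a with
          | 0 => exact (h4 i).symm
          | 1 => exact (h5 i).symm
        · intro i
          have h8 : i ∈ {i | x i 0 = x i 1} ↔ i ∈ {i | G i u = G i w} := by rw [h6]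
          exact h8.symm
  refine ⟨fun t => vs 𝔹 (val t), κ, ?_, key⟩
  intro W _ G
  obtain ⟨ψ, h1, h2, -⟩ := hΨ W G
  obtain ⟨h3, h4⟩ := key W G ψ h2
  refine ⟨ψ, h1, ?_, ?_⟩
  · intro w
    simp only [vt_c0]
    exact h3 w
  · intro u w
    simp only [vt_c0]
    exact h4 u w

end Pool.Agent.H60.LH
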